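import Pool.Agent.Helper47.CK.Gen

/-!
Binary codes of relative distance `δ`, every `δ`.
-/

set_option autoImplicit false

open Finset Filter

namespace Pool.Agent.Helper47.CK

lemma eventually_lin {a b : ℝ} (ha : 0 < a) : ∀ᶠ n : ℕ in atTop, b ≤ a * n := by
  have h : Tendsto (fun n : ℕ => a * (n : ℝ)) atTop atTop :=
    Tendsto.const_mul_atTop ha tendsto_natCast_atTop_atTop
  exact h.eventually_ge_atTop b

lemma binE (p : ℝ) : Real.binEntropy p = -(p * Real.log p) - (1 - p) * Real.log (1 - p) := by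
  rw [Real.binEntropy, Real.log_inv, Real.log_inv]
  ring

/-- the logarithmic step -/
lemma log_step {n K T : ℕ} {ν τ κ g c : ℝ} (hν : 0 < ν) (hν1 : ν < 1 / 4) (hτ0 : 0 < τ)
    (hτ : τ ≤ 1 / 2) (hg0 : 0 < g) (hKn : K ≤ n) (hTn' : T ≤ n) (hT1 : (T : ℝ) ≤ τ * n)
    (hK2 : ((n : ℝ) + 1) * ν ≤ K + 1) (hcR : 0 < c)
    (c1 : c * (τ ^ T * (1 - τ) ^ (n - T)) ≤ (4 / g) * (n + 1) * (ν ^ K * (1 - ν) ^ (n - K)))
    (e7 : Real.log ((1 - ν) / ν * (4 / g) * ((n : ℝ) + 1)) ≤
      (κ * Real.log 2 - (Real.binEntropy τ - Real.binEntropy ν)) * n) :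
    c ≤ 2 ^ (κ * n) := by
  have hν1' : 0 < 1 - ν := by linarith
  have hτ1' : 0 < 1 - τ := by linarith
  have hn0 : (0 : ℝ) ≤ n := Nat.cast_nonneg _
  have c2 := Real.log_le_log (by positivity) c1
  have l1 : Real.log (c * (τ ^ T * (1 - τ) ^ (n - T))) =
      Real.log c + (T * Real.log τ + (n - T) * Real.log (1 - τ)) := by
    rw [Real.log_mul (by positivity) (by positivity), Real.log_mul (by positivity) (by positivity),
      Real.log_pow, Real.log_pow, Nat.cast_sub hTn']
  have l2 : Real.log ((4 / g) * (n + 1) * (ν ^ K * (1 - ν) ^ (n - K))) =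
      Real.log ((4 / g) * ((n : ℝ) + 1)) + (K * Real.log ν + (n - K) * Real.log (1 - ν)) := by
    rw [Real.log_mul (x := (4 / g) * ((n : ℝ) + 1)) (by positivity) (by positivity),
      Real.log_mul (x := ν ^ K) (by positivity) (by positivity),
      Real.log_pow, Real.log_pow, Nat.cast_sub hKn]
  rw [l1, l2] at c2
  have c3 : Real.log ((1 - ν) / ν * (4 / g) * ((n : ℝ) + 1)) =
      Real.log (1 - ν) - Real.log ν + Real.log ((4 / g) * ((n : ℝ) + 1)) := by
    rw [mul_assoc, Real.log_mul (by positivity) (by positivity), Real.log_div (by positivity)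
      (by positivity)]
  rw [c3] at e7
  have d1 : Real.log τ ≤ Real.log (1 - τ) := Real.log_le_log hτ0 (by linarith)
  have d2 : Real.log ν ≤ Real.log (1 - ν) := Real.log_le_log hν (by linarith)
  have f1 := mul_le_mul_of_nonneg_right hT1 (sub_nonneg.2 d1)
  have f2 : ((n : ℝ) * ν - 1) * (Real.log (1 - ν) - Real.log ν) ≤
      K * (Real.log (1 - ν) - Real.log ν) := by
    apply mul_le_mul_of_nonneg_right _ (sub_nonneg.2 d2)
    linarith
  have E1 := binE τ
  have E2 := binE ν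
  rw [E1, E2] at e7
  have k3 : Real.log c ≤ κ * n * Real.log 2 := by
    linarith
  rw [← Real.log_le_log_iff hcR (by positivity), Real.log_rpow (by norm_num)]
  exact k3

/-- the exponent for codes of relative distance `δ` -/
theorem codes_gen {δ ν τ κ : ℝ} (hδ : δ < 1 / 2) (hν : 0 < ν) (hντ : 2 * ν < τ)
    (hτ : τ ≤ 1 / 2) (hcond : (1 / 2 - δ) ^ 2 < (τ - 2 * ν) * (1 - τ - 2 * ν))
    (hκ : Real.binEntropy τ - Real.binEntropy ν < κ * Real.log 2) :
    ∀ᶠ n : ℕ in atTop, ∀ C : Finset (Fin n → Bool),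
      (∀ u ∈ C, ∀ v ∈ C, u ≠ v → δ * n ≤ hammingDist u v) →
        (C.card : ℝ) ≤ 2 ^ (κ * n) := by
  have hX : 0 < τ - 2 * ν := by linarith
  have hY : 0 < 1 - τ - 2 * ν := by linarith
  set X := τ - 2 * ν with hXd
  set Y := 1 - τ - 2 * ν with hYd
  set p := Real.sqrt X with hp
  set q := Real.sqrt Y with hq
  have hp0 : 0 < p := Real.sqrt_pos.2 hX
  have hq0 : 0 < q := Real.sqrt_pos.2 hY
  have hpp : p * p = X := Real.mul_self_sqrt hX.le
  have hqq : q * q = Y := Real.mul_self_sqrt hY.le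
  set h := 1 / 2 - δ with hh
  have hh0 : 0 < h := by linarith
  have hpq : h < p * q := by
    have h1 : h ^ 2 < (p * q) ^ 2 := by
      calc h ^ 2 < X * Y := hcond
        _ = (p * q) ^ 2 := by rw [← hpp, ← hqq]; ring
    exact lt_of_pow_lt_pow_left₀ 2 (by positivity) h1
  set α := (h + p * q) / 2 with hα
  have hα1 : h < α := by linarith
  have hα2 : α < p * q := by linarith
  have hα0 : 0 < α := by linarith
  set ρ := p / q with hρ
  have hρ0 : 0 < ρ := by positivity
  have hYρ : Y * ρ = p * q := by rw [hρ, ← hqq]; field_simp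
  have hαρ : α * ρ < X := by
    have : (p * q) * ρ = X := by rw [hρ, ← hpp]; field_simp
    rw [← this]
    exact mul_lt_mul_of_pos_right hα2 hρ0
  set g := α - h with hg
  have hg0 : 0 < g := by linarith
  obtain ⟨L, hL⟩ := exists_nat_gt (2 * α / g + 1)
  have hLR : (1 : ℝ) < L := by
    have : 0 < 2 * α / g := by positivity
    linarith
  have hL1 : 1 ≤ L := by
    have : (1 : ℝ) ≤ L := hLR.le
    exact_mod_cast this
  have hLg : 2 * α * (1 / L) ≤ g := by
    have h1 : 2 * α / g ≤ L := by linarith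
    rw [div_le_iff₀ hg0] at h1
    rw [mul_one_div, div_le_iff₀ (by linarith)]
    linarith
  have hτ0 : 0 < τ := by linarith
  have hν1 : ν < 1 / 4 := by linarith
  have hl2 : 0 < Real.log 2 := Real.log_pos (by norm_num)
  filter_upwards [eventually_lin (a := ν) (b := 1) hν,
    eventually_lin (a := X) (b := 2 * ν + L + 1) hX,
    eventually_lin (a := Y) (b := 2 * ν) hY,
    eventually_lin (a := Y * ρ - α) (b := 2 * ν * ρ) (by linarith),
    eventually_lin (a := X - α * ρ) (b := L + 2 * ν) (by linarith),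
    eventually_ge_atTop 1,
    eventually_log (c := (1 - ν) / ν * (4 / g)) (ε := κ * Real.log 2 -
      (Real.binEntropy τ - Real.binEntropy ν)) (by
        have : 0 < 1 - ν := by linarith
        positivity) (by linarith)] with n e1 e2 e3 e4 e5 e6 e7 C hC
  have hnR : (1 : ℝ) ≤ n := by exact_mod_cast e6
  rcases Nat.eq_zero_or_pos C.card with h0 | hpos
  · rw [h0, Nat.cast_zero]; positivity
  set K := ⌊((n : ℝ) + 1) * ν⌋₊ with hK
  set T := ⌊τ * (n : ℝ)⌋₊ with hT
  have hK1 : (K : ℝ) ≤ (n + 1) * ν := Nat.floor_le (by positivity)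
  have hK2 : ((n : ℝ) + 1) * ν < K + 1 := Nat.lt_floor_add_one _
  have hT1 : (T : ℝ) ≤ τ * n := Nat.floor_le (by positivity)
  have hT2 : τ * (n : ℝ) < T + 1 := Nat.lt_floor_add_one _
  have hKpos : 1 ≤ K := by
    rw [hK, Nat.le_floor_iff (by positivity)]
    push_cast
    linarith
  have hX2 : 2 * ν + L + 1 ≤ (τ - 2 * ν) * n := e2
  have hY2 : 2 * ν ≤ (1 - τ - 2 * ν) * n := e3
  have hJK : 2 * K + L ≤ T := by
    have : (2 : ℝ) * K + L ≤ T := by linarith
    exact_mod_cast this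
  have hTn : T + 2 * K ≤ n := by
    have : (T : ℝ) + 2 * K ≤ n := by linarith
    exact_mod_cast this
  obtain ⟨k, hk⟩ : ∃ k, K = k + 1 := ⟨K - 1, by omega⟩
  have hdn : ⌈δ * (n : ℝ)⌉₊ ≤ n := by
    rw [Nat.ceil_le]
    nlinarith
  have hd1 : δ * n ≤ (⌈δ * (n : ℝ)⌉₊ : ℝ) := Nat.le_ceil _
  have hbound := code_bound_gen n ⌈δ * (n : ℝ)⌉₊ k T L (ρ := ρ) (A := α * n)
    (lam := 2 * (α * n) * (1 - 1 / L)) (g := g) hρ0 hL1 (by omega) (by omega) (by omega)
    (by positivity)
    (by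
      rw [← hk]
      have h1 : (Y * n - 2 * ν) * ρ ≤ ((n : ℝ) - 2 * K - T) * ρ := by
        apply mul_le_mul_of_nonneg_right _ hρ0.le
        rw [hYd]
        linarith
      linarith)
    (by
      rw [← hk]
      have h1 : X * n - 2 * ν - L ≤ (T : ℝ) + 1 - L - 2 * K := by
        rw [hXd]
        linarith
      linarith)
    rfl hg0 e6
    (by
      have h1 : 2 * α * (1 / L) * n ≤ g * n := mul_le_mul_of_nonneg_right hLg (by positivity)
      have h2 : h = 1 / 2 - δ := hh
      have h3 : g = α - h := hg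
      rw [h3] at h1 ⊢
      rw [h2] at h1 ⊢
      linarith) hdn C
    (fun u hu v hv huv => by
      rw [Nat.ceil_le]
      exact hC u hu v hv huv)
  rw [← hk] at hbound
  have hKn : K ≤ n := by omega
  have hTn' : T ≤ n := by omega
  have b1 := choose_lower_real n K hν (by linarith) hK1 hK2.le hKn
  have b2 := sum_upper_real n (2 * K) T hτ0 hτ hTn'
  have hcR : (0 : ℝ) < C.card := by exact_mod_cast hpos
  have hν1' : 0 < 1 - ν := by linarith
  have hτ1' : 0 < 1 - τ := by linarith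
  have c1 : (C.card : ℝ) * (τ ^ T * (1 - τ) ^ (n - T)) ≤
      (4 / g) * (n + 1) * (ν ^ K * (1 - ν) ^ (n - K)) := by
    set S := ∑ j ∈ Icc (2 * K) T, (n.choose j : ℝ) with hS
    have q1 : (C.card : ℝ) ≤ ((n : ℝ) + 1) * (ν ^ K * (1 - ν) ^ (n - K)) *
        (C.card * n.choose K) := by
      calc (C.card : ℝ) = C.card * 1 := by ring
        _ ≤ C.card * (((n : ℝ) + 1) * (n.choose K * (ν ^ K * (1 - ν) ^ (n - K)))) :=
            mul_le_mul_of_nonneg_left b1 hcR.le
        _ = _ := by ring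
    have q2 : ((n : ℝ) + 1) * (ν ^ K * (1 - ν) ^ (n - K)) * (C.card * n.choose K) ≤
        ((n : ℝ) + 1) * (ν ^ K * (1 - ν) ^ (n - K)) * ((4 / g) * S) :=
      mul_le_mul_of_nonneg_left hbound (by positivity)
    calc (C.card : ℝ) * (τ ^ T * (1 - τ) ^ (n - T))
        ≤ (((n : ℝ) + 1) * (ν ^ K * (1 - ν) ^ (n - K)) * ((4 / g) * S)) *
          (τ ^ T * (1 - τ) ^ (n - T)) :=
          mul_le_mul_of_nonneg_right (q1.trans q2) (by positivity)
      _ = ((4 / g) * (n + 1) * (ν ^ K * (1 - ν) ^ (n - K))) * (S * (τ ^ T * (1 - τ) ^ (n - T))) := by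
          ring
      _ ≤ ((4 / g) * (n + 1) * (ν ^ K * (1 - ν) ^ (n - K))) * 1 :=
          mul_le_mul_of_nonneg_left b2 (by positivity)
      _ = _ := by ring
  exact log_step hν hν1 hτ0 hτ hg0 hKn hTn' hT1 hK2.le hcR c1 e7

/-- Gibbs' inequality for two points -/
lemma gibbs {a b : ℝ} (ha0 : 0 < a) (ha1 : a < 1) (hb0 : 0 < b) (hb1 : b < 1) :
    Real.binEntropy a ≤ Real.binEntropy b + (a - b) * (Real.log (1 - b) - Real.log b) := by
  have h1 : Real.log (b / a) ≤ b / a - 1 := Real.log_le_sub_one_of_pos (by positivity)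
  have ha' : 0 < 1 - a := by linarith
  have hb' : 0 < 1 - b := by linarith
  have h2 : Real.log ((1 - b) / (1 - a)) ≤ (1 - b) / (1 - a) - 1 :=
    Real.log_le_sub_one_of_pos (by positivity)
  rw [Real.log_div hb0.ne' ha0.ne'] at h1
  rw [Real.log_div hb'.ne' ha'.ne'] at h2
  have h3 := mul_le_mul_of_nonneg_left h1 ha0.le
  have h4 := mul_le_mul_of_nonneg_left h2 ha'.le
  have e1 : a * (b / a - 1) = b - a := by field_simp
  have e2 : (1 - a) * ((1 - b) / (1 - a) - 1) = (1 - b) - (1 - a) := by field_simp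
  rw [e1] at h3
  rw [e2] at h4
  rw [binE, binE]
  linarith

/-- strict improvement of the first linear programming bound for every relative distance -/
theorem codes_strict {s : ℝ} (hs0 : 0 < s) (hs1 : s < 1) :
    ∃ κ : ℝ, κ * Real.log 2 < Real.binEntropy ((1 - Real.sqrt (1 - s ^ 2)) / 2) ∧
      ∀ᶠ n : ℕ in atTop, ∀ C : Finset (Fin n → Bool),
        (∀ u ∈ C, ∀ v ∈ C, u ≠ v → (1 - s) / 2 * n ≤ hammingDist u v) →
          (C.card : ℝ) ≤ 2 ^ (κ * n) := by
  have hr0 : 0 < 1 - s ^ 2 := by nlinarith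
  set r := Real.sqrt (1 - s ^ 2) with hr
  have hrp : 0 < r := Real.sqrt_pos.2 hr0
  have hrr : r ^ 2 = 1 - s ^ 2 := Real.sq_sqrt hr0.le
  have hr1 : r < 1 := by nlinarith
  set t := (1 - r) / 2 with ht
  have ht0 : 0 < t := by linarith
  have ht1 : t < 1 / 2 := by linarith
  have htt : t * (1 - t) = (s / 2) ^ 2 := by rw [ht]; nlinarith
  have hl2 : 0 < Real.log 2 := Real.log_pos (by norm_num)
  set M := 3 / (1 - 2 * t) with hM
  have h12 : 0 < 1 - 2 * t := by linarith
  have hMt : M * (1 - 2 * t) = 3 := by rw [hM]; exact div_mul_cancel₀ _ h12.ne'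
  have hM3 : 3 < M := by
    rw [hM, lt_div_iff₀ (by linarith)]
    nlinarith
  set ν := min (min ((1 / 2 - t) / M) (1 / (M ^ 2)))
    (Real.exp (-(M * (Real.log (1 - t) - Real.log t)))) / 2 with hν
  have hmin : 0 < min (min ((1 / 2 - t) / M) (1 / (M ^ 2)))
    (Real.exp (-(M * (Real.log (1 - t) - Real.log t)))) := by
    apply lt_min (lt_min _ _) (Real.exp_pos _)
    · apply div_pos <;> linarith
    · positivity
  have hν0 : 0 < ν := by rw [hν]; linarith
  have hν1 : ν < (1 / 2 - t) / M := by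
    have := (min_le_left _ _).trans (min_le_left ((1 / 2 - t) / M) (1 / (M ^ 2)))
      (a := min (min ((1 / 2 - t) / M) (1 / (M ^ 2)))
        (Real.exp (-(M * (Real.log (1 - t) - Real.log t)))))
    rw [hν]; linarith
  have hν2 : ν < 1 / M ^ 2 := by
    have := (min_le_left _ _).trans (min_le_right ((1 / 2 - t) / M) (1 / (M ^ 2)))
      (a := min (min ((1 / 2 - t) / M) (1 / (M ^ 2)))
        (Real.exp (-(M * (Real.log (1 - t) - Real.log t)))))
    rw [hν]; linarith
  have hν3 : ν < Real.exp (-(M * (Real.log (1 - t) - Real.log t))) := by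
    have := min_le_right (min ((1 / 2 - t) / M) (1 / (M ^ 2)))
      (Real.exp (-(M * (Real.log (1 - t) - Real.log t))))
    rw [hν]; linarith
  rw [lt_div_iff₀ (by linarith)] at hν1
  rw [lt_div_iff₀ (by positivity)] at hν2
  have hν3' : Real.log ν < -(M * (Real.log (1 - t) - Real.log t)) := by
    rw [Real.log_lt_iff_lt_exp hν0]
    exact hν3
  set τ := t + M * ν with hτ
  have hent : Real.binEntropy τ - Real.binEntropy ν < Real.binEntropy t := by
    have g1 := gibbs (a := τ) (b := t) (by positivity) (by rw [hτ]; linarith) ht0 (by linarith)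
    have g2 := binE ν
    have hlν : Real.log (1 - ν) ≤ 0 := Real.log_nonpos (by nlinarith) (by linarith)
    have g3 : ν * (M * (Real.log (1 - t) - Real.log t)) < ν * (-Real.log ν) :=
      mul_lt_mul_of_pos_left (by linarith) hν0
    have g4 : 0 ≤ -((1 - ν) * Real.log (1 - ν)) := by
      have : 0 ≤ 1 - ν := by nlinarith
      nlinarith
    have g5 : τ - t = M * ν := by rw [hτ]; ring
    rw [g5] at g1
    rw [g2]
    linarith
  obtain ⟨κ', hκ1, hκ2⟩ := exists_between hent
  have hκ3 : κ' / Real.log 2 * Real.log 2 = κ' := div_mul_cancel₀ _ hl2.ne'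
  refine ⟨κ' / Real.log 2, ?_, ?_⟩
  · rw [hκ3]
    exact hκ2
  · have hντ : 2 * ν < τ := by
      have := mul_lt_mul_of_pos_right hM3 hν0
      rw [hτ]; linarith
    have hτ2 : τ ≤ 1 / 2 := by rw [hτ]; linarith
    have hκ4 : Real.binEntropy τ - Real.binEntropy ν < κ' / Real.log 2 * Real.log 2 := by
      rw [hκ3]
      exact hκ1
    refine codes_gen (δ := (1 - s) / 2) (ν := ν) (τ := τ) (by linarith) hν0 hντ hτ2 ?_ hκ4
    have e1 : (1 / 2 - (1 - s) / 2) ^ 2 = t * (1 - t) := by rw [htt]; ring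
    rw [e1, hτ]
    have e2 : (t + M * ν - 2 * ν) * (1 - (t + M * ν) - 2 * ν) =
        t * (1 - t) + ν * (M * (1 - 2 * t) - 2) - (M ^ 2 - 4) * ν ^ 2 := by ring
    rw [e2, hMt]
    have e3 : ν * (M ^ 2 * ν) < ν * 1 := mul_lt_mul_of_pos_left (by linarith) hν0
    have e4 := sq_nonneg ν
    linarith

end Pool.Agent.Helper47.CK
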