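import Pool.Agent.Helper23.KL.Harmonic

/-!
Binary codes of relative distance `1/4`: the bound `2^(0.351 n)` from the finite form
`cube_bound` (helper23) of the improved linear programming bound.
-/

set_option autoImplicit false

open Finset Filter

namespace Pool.Agent.Helper47.CK

/-- the largest term of the binomial expansion of `(1 + (m-1))^n` -/
lemma choose_lower (n m K : ℕ) (hK : K = (n + 1) / m) (hm : 1 < m) (hKn : K ≤ n) :
    m ^ n ≤ (n + 1) * (n.choose K * (m - 1) ^ (n - K)) := by
  have hm0 : 0 < m := by omega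
  have up : ∀ j, j < K → n.choose j * (m - 1) ^ (n - j) ≤
      n.choose (j + 1) * (m - 1) ^ (n - (j + 1)) := by
    intro j hj
    have h1 : n - j = (n - (j + 1)) + 1 := by omega
    rw [h1, pow_succ, ← mul_assoc, mul_right_comm]
    apply Nat.mul_le_mul_right
    have h2 := Nat.choose_succ_right_eq n j
    have h3 : m * (j + 1) ≤ n + 1 := by
      have : j + 1 ≤ (n + 1) / m := by omega
      rw [Nat.le_div_iff_mul_le hm0] at this
      linarith [mul_comm m (j + 1)]
    have h4 : (m - 1) * (j + 1) ≤ n - j := by
      obtain ⟨p, rfl⟩ : ∃ p, m = p + 1 := ⟨m - 1, by omega⟩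
      have : p * (j + 1) + (j + 1) ≤ n + 1 := by linarith [add_mul p 1 (j + 1)]
      simp only [Nat.add_sub_cancel]
      omega
    have h5 : n.choose j * (m - 1) * (j + 1) ≤ n.choose (j + 1) * (j + 1) := by
      rw [h2, mul_assoc]
      exact Nat.mul_le_mul_left _ h4
    exact Nat.le_of_mul_le_mul_right h5 (Nat.succ_pos j)
  have down : ∀ j, K ≤ j → j < n → n.choose (j + 1) * (m - 1) ^ (n - (j + 1)) ≤
      n.choose j * (m - 1) ^ (n - j) := by
    intro j hj hjn
    have h1 : n - j = (n - (j + 1)) + 1 := by omega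
    rw [h1, pow_succ, ← mul_assoc, mul_right_comm]
    apply Nat.mul_le_mul_right
    have h2 := Nat.choose_succ_right_eq n j
    have h3 : n + 1 < m * (j + 1) := by
      have : (n + 1) / m < j + 1 := by omega
      rw [Nat.div_lt_iff_lt_mul hm0] at this
      linarith [mul_comm m (j + 1)]
    have h4 : n - j ≤ (m - 1) * (j + 1) := by
      obtain ⟨p, rfl⟩ : ∃ p, m = p + 1 := ⟨m - 1, by omega⟩
      have : n + 1 < p * (j + 1) + (j + 1) := by linarith [add_mul p 1 (j + 1)]
      simp only [Nat.add_sub_cancel]
      omega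
    have h5 : n.choose (j + 1) * (j + 1) ≤ n.choose j * (m - 1) * (j + 1) := by
      rw [h2, mul_assoc]
      exact Nat.mul_le_mul_left _ h4
    exact Nat.le_of_mul_le_mul_right h5 (Nat.succ_pos j)
  have h1 : ∀ i, i ≤ K → n.choose (K - i) * (m - 1) ^ (n - (K - i)) ≤
      n.choose K * (m - 1) ^ (n - K) := by
    intro i
    induction i with
    | zero => intro _; simp
    | succ i ih =>
      intro hi
      refine le_trans ?_ (ih (by omega))
      have := up (K - (i + 1)) (by omega)
      rwa [show K - (i + 1) + 1 = K - i by omega] at this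
  have h2 : ∀ i, K + i ≤ n → n.choose (K + i) * (m - 1) ^ (n - (K + i)) ≤
      n.choose K * (m - 1) ^ (n - K) := by
    intro i
    induction i with
    | zero => intro _; simp
    | succ i ih =>
      intro hi
      refine le_trans ?_ (ih (by omega))
      exact down (K + i) (by omega) (by omega)
  have h3 : ∀ j ∈ range (n + 1), n.choose j * (m - 1) ^ (n - j) ≤
      n.choose K * (m - 1) ^ (n - K) := by
    intro j hj
    rw [mem_range] at hj
    rcases le_total j K with h | h
    · have := h1 (K - j) (by omega)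
      rwa [show K - (K - j) = j by omega] at this
    · have := h2 (j - K) (by omega)
      rwa [show K + (j - K) = j by omega] at this
  have h4 : m ^ n = ∑ j ∈ range (n + 1), n.choose j * (m - 1) ^ (n - j) := by
    have h5 := add_pow (1 : ℕ) (m - 1) n
    rw [show 1 + (m - 1) = m by omega] at h5
    rw [h5]
    refine sum_congr rfl fun j _ => ?_
    rw [one_pow, one_mul, mul_comm, Nat.cast_id]
  rw [h4]
  refine (sum_le_card_nsmul _ _ _ h3).trans ?_
  rw [card_range, smul_eq_mul]

/-- the sum of the small binomial coefficients -/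
lemma sum_upper (n a T p q : ℕ) (hpq : p ≤ q) (hT : T ≤ n) :
    (∑ j ∈ Icc a T, n.choose j) * (p ^ T * q ^ (n - T)) ≤ (p + q) ^ n := by
  rw [add_pow, sum_mul]
  refine le_trans (sum_le_sum (g := fun j => p ^ j * q ^ (n - j) * (n.choose j : ℕ)) ?_)
    (sum_le_sum_of_subset ?_)
  · intro j hj
    rw [mem_Icc] at hj
    rw [mul_comm]
    apply Nat.mul_le_mul_right
    have h1 : T = j + (T - j) := by omega
    have h2 : n - j = (n - T) + (T - j) := by omega
    rw [h2]
    conv_lhs => rw [h1]
    rw [pow_add, pow_add, show n - (j + (T - j)) = n - T by omega]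
    calc p ^ j * p ^ (T - j) * q ^ (n - T) = p ^ j * q ^ (n - T) * p ^ (T - j) := by ring
      _ ≤ p ^ j * q ^ (n - T) * q ^ (T - j) := Nat.mul_le_mul_left _ (Nat.pow_le_pow_left hpq _)
      _ = _ := by ring
  · intro j hj
    rw [mem_Icc] at hj
    rw [mem_range]
    omega

lemma num1 : 68 ^ 34272 < 2 ^ 12988 * 5 ^ 2520 * 63 ^ 31752 := by decide +kernel

lemma num2 : 2 ^ 1416 * 353 ^ 50479 < 354 ^ 50622 := by decide +kernel

lemma log1 : Real.log 68 - (5 / 68) * Real.log 5 - (63 / 68) * Real.log 63
    ≤ (191 / 504) * Real.log 2 := by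
  have h : ((68 : ℝ) ^ 34272) < 2 ^ 12988 * 5 ^ 2520 * 63 ^ 31752 := by exact_mod_cast num1
  have h2 := Real.log_lt_log (by positivity) h
  rw [Real.log_mul (by positivity) (by positivity), Real.log_mul (by positivity) (by positivity),
    Real.log_pow, Real.log_pow, Real.log_pow, Real.log_pow] at h2
  push_cast at h2
  linarith

lemma log2 : (4 / 143) * Real.log 2 ≤ Real.log 354 - (353 / 354) * Real.log 353 := by
  have h : ((2 : ℝ) ^ 1416 * 353 ^ 50479) < 354 ^ 50622 := by exact_mod_cast num2
  have h2 := Real.log_lt_log (by positivity) h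
  rw [Real.log_mul (by positivity) (by positivity),
    Real.log_pow, Real.log_pow, Real.log_pow] at h2
  push_cast at h2
  linarith

end Pool.Agent.Helper47.CK
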