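import Pool.Agent.Helper47.CK.Final

/-!
Binary codes of relative distance `1/4` have at most `2^(0.351 n)` elements for large `n`.
-/

set_option autoImplicit false

open Finset Filter

namespace Pool.Agent.Helper47.CK

lemma eventually_log {c ε : ℝ} (hc : 0 < c) (hε : 0 < ε) :
    ∀ᶠ n : ℕ in atTop, Real.log (c * (n + 1)) ≤ ε * n := by
  have h1 : ∀ᶠ x : ℝ in atTop, |Real.log x| ≤ (ε / (2 * c)) * |x| :=
    Real.isLittleO_log_id_atTop.bound (by positivity)
  have h2 : Tendsto (fun n : ℕ => c * ((n : ℝ) + 1)) atTop atTop :=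
    Tendsto.const_mul_atTop hc (tendsto_atTop_add_const_right _ _ tendsto_natCast_atTop_atTop)
  filter_upwards [h2.eventually h1, eventually_ge_atTop 1] with n hn hn1
  have hn1R : (1 : ℝ) ≤ n := by exact_mod_cast hn1
  have hpos : 0 < c * ((n : ℝ) + 1) := by positivity
  rw [abs_of_pos hpos] at hn
  refine (le_abs_self _).trans (hn.trans ?_)
  have h3 : ε / (2 * c) * (c * ((n : ℝ) + 1)) = ε / 2 * (n + 1) := by field_simp
  rw [h3]
  nlinarith

/-- **Codes.**  For all large `n` a binary code of length `n` and minimum distance at least `n/4`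
has at most `2 ^ (0.351 n)` elements. -/
theorem codes : ∀ᶠ n : ℕ in atTop, ∀ C : Finset (Fin n → Bool),
    (∀ u ∈ C, ∀ v ∈ C, u ≠ v → n ≤ 4 * hammingDist u v) →
      (C.card : ℝ) ≤ 2 ^ ((351 / 1000 : ℝ) * n) := by
  filter_upwards [eventually_log (c := 1000000 * 353) (ε := 0.0000037 * Real.log 2) (by norm_num)
    (by have := Real.log_pos (show (1 : ℝ) < 2 by norm_num); positivity),
    eventually_ge_atTop (10 ^ 12)] with n hlog hn C hC
  rcases Nat.eq_zero_or_pos C.card with h0 | hpos
  · rw [h0, Nat.cast_zero]; positivity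
  set K := (n + 1) / 354 with hK
  set T := 5 * n / 68 with hT
  have hKn : K ≤ n := by omega
  have hTn : T ≤ n := by omega
  have h1 := code_bound n ((n + 3) / 4) K T 100000 hK hT rfl hn (by omega) (by omega) C
    (fun u hu v hv huv => by
      have := hC u hu v hv huv
      omega)
  have h2 := choose_lower n 354 K hK (by norm_num) hKn
  have h3 := sum_upper n (2 * K) T 5 63 (by norm_num) hTn
  have hcast1 : (354 : ℝ) ^ n ≤ (n + 1) * (n.choose K * 353 ^ (n - K)) := by exact_mod_cast h2
  have hcast2 : ((∑ j ∈ Icc (2 * K) T, n.choose j : ℕ) : ℝ) * (5 ^ T * 63 ^ (n - T)) ≤ 68 ^ n := by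
    exact_mod_cast h3
  have hcR : (0 : ℝ) < C.card := by exact_mod_cast hpos
  -- product inequality
  have h4 : (C.card : ℝ) * 354 ^ n * (5 ^ T * 63 ^ (n - T)) ≤
      (1000000 * (n + 1)) * 353 ^ (n - K) * 68 ^ n := by
    have a1 : (C.card : ℝ) * 354 ^ n ≤ (C.card * n.choose K) * ((n + 1) * 353 ^ (n - K)) := by
      calc (C.card : ℝ) * 354 ^ n ≤ C.card * ((n + 1) * (n.choose K * 353 ^ (n - K))) :=
            mul_le_mul_of_nonneg_left hcast1 hcR.le
        _ = _ := by ring
    have a2 : (C.card * n.choose K : ℝ) * ((n + 1) * 353 ^ (n - K)) ≤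
        (1000000 * (∑ j ∈ Icc (2 * K) T, n.choose j : ℕ)) * ((n + 1) * 353 ^ (n - K)) :=
      mul_le_mul_of_nonneg_right h1 (by positivity)
    calc (C.card : ℝ) * 354 ^ n * (5 ^ T * 63 ^ (n - T))
        ≤ (1000000 * (∑ j ∈ Icc (2 * K) T, n.choose j : ℕ)) * ((n + 1) * 353 ^ (n - K)) *
          (5 ^ T * 63 ^ (n - T)) :=
          mul_le_mul_of_nonneg_right (a1.trans a2) (by positivity)
      _ = (1000000 * (n + 1)) * 353 ^ (n - K) *
          (((∑ j ∈ Icc (2 * K) T, n.choose j : ℕ) : ℝ) * (5 ^ T * 63 ^ (n - T))) := by ring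
      _ ≤ _ := mul_le_mul_of_nonneg_left hcast2 (by positivity)
  have h5 := Real.log_le_log (by positivity) h4
  rw [Real.log_mul (by positivity) (by positivity), Real.log_mul (by positivity) (by positivity),
    Real.log_mul (by positivity) (by positivity), Real.log_mul (by positivity) (by positivity),
    Real.log_mul (by positivity) (by positivity), Real.log_pow, Real.log_pow, Real.log_pow,
    Real.log_pow, Real.log_pow, Nat.cast_sub hKn, Nat.cast_sub hTn] at h5
  have h6 : Real.log (1000000 * 353 * ((n : ℝ) + 1)) =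
      Real.log (1000000 * ((n : ℝ) + 1)) + Real.log 353 := by
    rw [← Real.log_mul (by positivity) (by positivity)]
    congr 1
    ring
  rw [h6] at hlog
  have l1 := log1
  have l2 := log2
  have hTR : (68 : ℝ) * T ≤ 5 * n := by
    have : 68 * T ≤ 5 * n := by omega
    exact_mod_cast this
  have hKR : (n : ℝ) ≤ 354 * K + 354 := by
    have : n ≤ 354 * K + 354 := by omega
    exact_mod_cast this
  have hl5 : Real.log 5 ≤ Real.log 63 := Real.log_le_log (by norm_num) (by norm_num)
  have hl353 : 0 ≤ Real.log 353 := Real.log_nonneg (by norm_num)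
  have hn0 : (0 : ℝ) ≤ n := Nat.cast_nonneg _
  have k1 : (n : ℝ) * Real.log 68 - T * Real.log 5 - (n - T) * Real.log 63 ≤
      n * ((191 / 504) * Real.log 2) := by
    have q1 := mul_le_mul_of_nonneg_left l1 hn0
    have q2 := mul_le_mul_of_nonneg_right hTR (sub_nonneg.2 hl5)
    linarith
  have k2 : (n : ℝ) * ((4 / 143) * Real.log 2) - Real.log 353 ≤
      n * Real.log 354 - (n - K) * Real.log 353 := by
    have q1 := mul_le_mul_of_nonneg_left l2 hn0
    have q2 := mul_le_mul_of_nonneg_right hKR hl353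
    linarith
  have hl2 : 0 < Real.log 2 := Real.log_pos (by norm_num)
  have hnl : 0 ≤ (n : ℝ) * Real.log 2 := by positivity
  have k3 : Real.log (C.card : ℝ) ≤ (351 / 1000 : ℝ) * n * Real.log 2 := by
    linarith
  rw [← Real.log_le_log_iff hcR (by positivity), Real.log_rpow (by norm_num)]
  exact k3

end Pool.Agent.Helper47.CK
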