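import Pool.Agent.Helper47.CK.GenCodes

/-!
MP_b5f63d_co: kissing configurations on the vertices of a cube have exponent at most `0.351`.
-/

set_option autoImplicit false

open Filter Metric
open scoped RealInnerProductSpace

namespace Pool.Agent.Helper47.CK.CubeKeep

/-- `C` is the set of centres of closed unit balls in `ℝ^d`, each of which touches the closed unit
ball around the origin and has interior disjoint from it, with pairwise disjoint interiors. -/
def IsKissing (d : ℕ) (C : Finset (EuclideanSpace ℝ (Fin d))) : Prop :=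
  (∀ x ∈ C, (closedBall x 1 ∩ closedBall 0 1).Nonempty ∧ Disjoint (ball x 1) (ball 0 1)) ∧
    ∀ x ∈ C, ∀ y ∈ C, x ≠ y → Disjoint (ball x 1) (ball y 1)

/-- The vertices of the cubes centred at the origin with edges parallel to the orthonormal basis
`b`: all coordinates have the same absolute value. -/
def cubeVertices {d : ℕ} (b : OrthonormalBasis (Fin d) ℝ (EuclideanSpace ℝ (Fin d))) :
    Set (EuclideanSpace ℝ (Fin d)) :=
  {x | ∀ i j, |⟪b i, x⟫| = |⟪b j, x⟫|}

/-- The largest number of points of a kissing configuration that lie on the vertices of a common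
cube centred at the origin. -/
noncomputable def tauCube (d : ℕ) : ℕ :=
  sSup {N : ℕ | ∃ (C : Finset (EuclideanSpace ℝ (Fin d)))
    (b : OrthonormalBasis (Fin d) ℝ (EuclideanSpace ℝ (Fin d))),
    IsKissing d C ∧ ((C : Set (EuclideanSpace ℝ (Fin d))) ∩ cubeVertices b).ncard = N}

/-- `C` is a finite subset of the sphere of radius `2` whose points are seen from the origin under
pairwise angles with cosine at most `s` (for `s = 1/2` these are the kissing configurations). -/
def IsAngular (s : ℝ) (d : ℕ) (C : Finset (EuclideanSpace ℝ (Fin d))) : Prop :=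
  (∀ x ∈ C, ‖x‖ = 2) ∧ ∀ x ∈ C, ∀ y ∈ C, x ≠ y → ⟪x, y⟫ ≤ 4 * s

/-- The same maximum for configurations with pairwise angles of cosine at most `s`. -/
noncomputable def angCube (s : ℝ) (d : ℕ) : ℕ :=
  sSup {N : ℕ | ∃ (C : Finset (EuclideanSpace ℝ (Fin d)))
    (b : OrthonormalBasis (Fin d) ℝ (EuclideanSpace ℝ (Fin d))),
    IsAngular s d C ∧ ((C : Set (EuclideanSpace ℝ (Fin d))) ∩ cubeVertices b).ncard = N}

lemma isKissing_iff {d : ℕ} {C : Finset (EuclideanSpace ℝ (Fin d))} :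
    IsKissing d C ↔ (∀ x ∈ C, ‖x‖ = 2) ∧ ∀ x ∈ C, ∀ y ∈ C, x ≠ y → 2 ≤ dist x y := by
  have h : ∀ x y : EuclideanSpace ℝ (Fin d), Disjoint (ball x 1) (ball y 1) ↔ 2 ≤ dist x y := by
    intro x y
    rw [disjoint_ball_ball_iff one_pos one_pos]
    norm_num
  have h' : ∀ x : EuclideanSpace ℝ (Fin d),
      ((closedBall x 1 ∩ closedBall 0 1).Nonempty ∧ Disjoint (ball x 1) (ball 0 1)) ↔ ‖x‖ = 2 := by
    intro x
    rw [h, dist_zero_right]
    constructor
    · rintro ⟨⟨y, hy1, hy2⟩, h2⟩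
      rw [mem_closedBall] at hy1
      rw [mem_closedBall, dist_zero_right] at hy2
      have h3 : ‖x‖ ≤ ‖y‖ + dist y x := by
        rw [dist_eq_norm, ← norm_sub_rev x y]
        calc ‖x‖ = ‖y + (x - y)‖ := by congr 1; abel
          _ ≤ _ := norm_add_le _ _
      linarith
    · intro hx
      refine ⟨⟨(2⁻¹ : ℝ) • x, ?_, ?_⟩, hx.ge⟩
      · rw [mem_closedBall, dist_eq_norm]
        have : (2⁻¹ : ℝ) • x - x = (-2⁻¹ : ℝ) • x := by
          rw [← sub_eq_zero]
          module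
        rw [this, norm_smul, hx]
        norm_num
      · rw [mem_closedBall, dist_zero_right, norm_smul, hx]
        norm_num
  unfold IsKissing
  simp only [h']
  simp only [h]

/-- the signs of the coordinates -/
noncomputable def sgn {d : ℕ} (b : OrthonormalBasis (Fin d) ℝ (EuclideanSpace ℝ (Fin d)))
    (x : EuclideanSpace ℝ (Fin d)) (i : Fin d) : Bool :=
  decide (0 ≤ ⟪b i, x⟫)

lemma coord {d : ℕ} (hd : 0 < d) {b : OrthonormalBasis (Fin d) ℝ (EuclideanSpace ℝ (Fin d))}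
    {x : EuclideanSpace ℝ (Fin d)} (hx : ‖x‖ = 2) (hb : x ∈ cubeVertices b) (i : Fin d) :
    |⟪b i, x⟫| = 2 / Real.sqrt d := by
  have h1 := b.sum_sq_norm_inner_right x
  have h2 : ∀ j ∈ (Finset.univ : Finset (Fin d)), ‖⟪b j, x⟫‖ ^ 2 = |⟪b i, x⟫| ^ 2 := by
    intro j _
    rw [Real.norm_eq_abs, hb j i]
  rw [Finset.sum_congr rfl h2, Finset.sum_const, Finset.card_univ, Fintype.card_fin, hx,
    nsmul_eq_mul] at h1
  have hdR : (0 : ℝ) < d := by exact_mod_cast hd
  have hs : 0 < Real.sqrt d := Real.sqrt_pos.2 hdR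
  have h3 : (|⟪b i, x⟫| * Real.sqrt d) ^ 2 = 2 ^ 2 := by
    rw [mul_pow, Real.sq_sqrt hdR.le]
    linarith
  have h4 : |⟪b i, x⟫| * Real.sqrt d = 2 :=
    (pow_left_inj₀ (by positivity) (by norm_num) (by norm_num)).1 h3
  rw [eq_div_iff hs.ne']
  exact h4

lemma coord_sub {d : ℕ} (hd : 0 < d) {b : OrthonormalBasis (Fin d) ℝ (EuclideanSpace ℝ (Fin d))}
    {x y : EuclideanSpace ℝ (Fin d)} (hx : ‖x‖ = 2) (hbx : x ∈ cubeVertices b)
    (hy : ‖y‖ = 2) (hby : y ∈ cubeVertices b) (i : Fin d) :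
    ‖⟪b i, x - y⟫‖ ^ 2 = if sgn b x i ≠ sgn b y i then 16 / (d : ℝ) else 0 := by
  have hdR : (0 : ℝ) < d := by exact_mod_cast hd
  have hs : 0 < Real.sqrt d := Real.sqrt_pos.2 hdR
  have h1 := coord hd hx hbx i
  have h2 := coord hd hy hby i
  have hc : 0 < 2 / Real.sqrt d := by positivity
  have h16 : (2 / Real.sqrt d - -(2 / Real.sqrt d)) ^ 2 = 16 / (d : ℝ) := by
    rw [sub_neg_eq_add, ← two_mul, mul_div_assoc', div_pow, Real.sq_sqrt hdR.le]
    norm_num
  rw [inner_sub_right, Real.norm_eq_abs, sq_abs]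
  unfold sgn
  rcases le_or_gt 0 ⟪b i, x⟫ with hp | hp
  · rw [abs_of_nonneg hp] at h1
    rcases le_or_gt 0 ⟪b i, y⟫ with hq | hq
    · rw [abs_of_nonneg hq] at h2
      rw [if_neg (by simp [hp, hq]), h1, h2]; ring
    · rw [abs_of_neg hq] at h2
      rw [if_pos (by simp [hp, hq.not_ge]), h1, show ⟪b i, y⟫ = -(2 / Real.sqrt d) by linarith, h16]
  · rw [abs_of_neg hp] at h1
    rcases le_or_gt 0 ⟪b i, y⟫ with hq | hq
    · rw [abs_of_nonneg hq] at h2
      rw [if_pos (by simp [hp.not_ge, hq]), h2, show ⟪b i, x⟫ = -(2 / Real.sqrt d) by linarith, ← h16]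
      ring
    · rw [abs_of_neg hq] at h2
      rw [if_neg (by simp [hp.not_ge, hq.not_ge]), show ⟪b i, x⟫ = -(2 / Real.sqrt d) by linarith,
        show ⟪b i, y⟫ = -(2 / Real.sqrt d) by linarith]
      ring

lemma dist_sq {d : ℕ} (hd : 0 < d) {b : OrthonormalBasis (Fin d) ℝ (EuclideanSpace ℝ (Fin d))}
    {x y : EuclideanSpace ℝ (Fin d)} (hx : ‖x‖ = 2) (hbx : x ∈ cubeVertices b)
    (hy : ‖y‖ = 2) (hby : y ∈ cubeVertices b) :
    dist x y ^ 2 = hammingDist (sgn b x) (sgn b y) * (16 / (d : ℝ)) := by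
  rw [dist_eq_norm, ← b.sum_sq_norm_inner_right (x - y)]
  rw [Finset.sum_congr rfl fun i _ => coord_sub hd hx hbx hy hby i]
  rw [← Finset.sum_filter, Finset.sum_const, nsmul_eq_mul]
  rfl

lemma isKissing_iff_isAngular {d : ℕ} {C : Finset (EuclideanSpace ℝ (Fin d))} :
    IsKissing d C ↔ IsAngular (1 / 2) d C := by
  rw [isKissing_iff]
  unfold IsAngular
  have key : ∀ x y : EuclideanSpace ℝ (Fin d), ‖x‖ = 2 → ‖y‖ = 2 →
      (2 ≤ dist x y ↔ ⟪x, y⟫ ≤ 4 * (1 / 2)) := by
    intro x y hx hy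
    have h := norm_sub_sq_real x y
    rw [hx, hy, ← dist_eq_norm] at h
    have h0 : 0 ≤ dist x y := dist_nonneg
    constructor
    · intro h1
      nlinarith
    · intro h1
      nlinarith
  constructor
  · rintro ⟨h1, h2⟩
    exact ⟨h1, fun x hx y hy hxy => (key x y (h1 x hx) (h1 y hy)).1 (h2 x hx y hy hxy)⟩
  · rintro ⟨h1, h2⟩
    exact ⟨h1, fun x hx y hy hxy => (key x y (h1 x hx) (h1 y hy)).2 (h2 x hx y hy hxy)⟩

lemma tauCube_eq (d : ℕ) : tauCube d = angCube (1 / 2) d := by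
  unfold tauCube angCube
  simp only [isKissing_iff_isAngular]

/-- the bound for one cube -/
lemma cube_le {d : ℕ} (hd : 0 < d) {s B : ℝ} (hs1 : s < 1)
    (hB : ∀ C : Finset (Fin d → Bool),
      (∀ u ∈ C, ∀ v ∈ C, u ≠ v → (1 - s) / 2 * d ≤ hammingDist u v) → (C.card : ℝ) ≤ B)
    {C : Finset (EuclideanSpace ℝ (Fin d))} (hC : IsAngular s d C)
    (b : OrthonormalBasis (Fin d) ℝ (EuclideanSpace ℝ (Fin d))) :
    (((C : Set (EuclideanSpace ℝ (Fin d))) ∩ cubeVertices b).ncard : ℝ) ≤ B := by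
  classical
  obtain ⟨h1, h2⟩ := hC
  have hdR : (0 : ℝ) < d := by exact_mod_cast hd
  set D : Finset (EuclideanSpace ℝ (Fin d)) := C.filter (fun x => x ∈ cubeVertices b) with hD
  have hDC : ((C : Set (EuclideanSpace ℝ (Fin d))) ∩ cubeVertices b) = (D : Set _) := by
    ext x
    simp [hD]
  rw [hDC, Set.ncard_coe_finset]
  have hham : ∀ x ∈ D, ∀ y ∈ D, x ≠ y →
      (1 - s) / 2 * d ≤ hammingDist (sgn b x) (sgn b y) := by
    intro x hx y hy hxy
    rw [hD, Finset.mem_filter] at hx hy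
    have h3 := dist_sq hd (h1 x hx.1) hx.2 (h1 y hy.1) hy.2
    have h4 := h2 x hx.1 y hy.1 hxy
    have h8 := norm_sub_sq_real x y
    rw [h1 x hx.1, h1 y hy.1, ← dist_eq_norm] at h8
    have h5 : 8 * (1 - s) ≤ hammingDist (sgn b x) (sgn b y) * (16 / (d : ℝ)) := by
      rw [← h3]; linarith
    have h7 : (hammingDist (sgn b x) (sgn b y) : ℝ) * (16 / (d : ℝ)) =
      (16 * hammingDist (sgn b x) (sgn b y)) / d := by ring
    rw [h7, le_div_iff₀ hdR] at h5
    linarith
  have hinj : Set.InjOn (sgn b) (D : Set (EuclideanSpace ℝ (Fin d))) := by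
    intro x hx y hy hxy
    by_contra hne
    have := hham x hx y hy hne
    rw [hxy, hammingDist_self, Nat.cast_zero] at this
    have h9 : 0 < (1 - s) / 2 * d := by
      apply mul_pos _ hdR
      linarith
    linarith
  rw [← Finset.card_image_of_injOn hinj]
  apply hB
  intro u hu v hv huv
  rw [Finset.mem_image] at hu hv
  obtain ⟨x, hx, rfl⟩ := hu
  obtain ⟨y, hy, rfl⟩ := hv
  exact hham x hx y hy (fun h => huv (by rw [h]))

/-- everything from a bound for codes -/
lemma angular_of_codes {s κ : ℝ} (hs1 : s < 1) {d : ℕ} (hd1 : 1 ≤ d)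
    (hB0 : ∀ C : Finset (Fin d → Bool),
      (∀ u ∈ C, ∀ v ∈ C, u ≠ v → (1 - s) / 2 * d ≤ hammingDist u v) →
        (C.card : ℝ) ≤ 2 ^ (κ * d)) :
    (∀ C : Finset (EuclideanSpace ℝ (Fin d)), IsAngular s d C →
      ∀ b : OrthonormalBasis (Fin d) ℝ (EuclideanSpace ℝ (Fin d)),
        (((C : Set (EuclideanSpace ℝ (Fin d))) ∩ cubeVertices b).ncard : ℝ) ≤ 2 ^ (κ * d)) ∧
      (∃ (C : Finset (EuclideanSpace ℝ (Fin d)))
        (b : OrthonormalBasis (Fin d) ℝ (EuclideanSpace ℝ (Fin d))),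
        IsAngular s d C ∧ (C : Set (EuclideanSpace ℝ (Fin d))) ⊆ cubeVertices b ∧
          C.card = angCube s d) ∧
      1 ≤ angCube s d ∧ (angCube s d : ℝ) ≤ 2 ^ (κ * d) := by
  have hB : ∀ C : Finset (EuclideanSpace ℝ (Fin d)), IsAngular s d C →
    ∀ b : OrthonormalBasis (Fin d) ℝ (EuclideanSpace ℝ (Fin d)),
      (((C : Set (EuclideanSpace ℝ (Fin d))) ∩ cubeVertices b).ncard : ℝ) ≤
        2 ^ (κ * d) := fun C hC b => cube_le hd1 hs1 hB0 hC b
  set S : Set ℕ := {N : ℕ | ∃ (C : Finset (EuclideanSpace ℝ (Fin d)))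
    (b : OrthonormalBasis (Fin d) ℝ (EuclideanSpace ℝ (Fin d))),
    IsAngular s d C ∧ ((C : Set (EuclideanSpace ℝ (Fin d))) ∩ cubeVertices b).ncard = N} with hS
  have hbdd : BddAbove S :=
    ⟨⌊(2 : ℝ) ^ (κ * d)⌋₊, by
      rintro N ⟨C, b, hC, rfl⟩
      exact Nat.le_floor (hB C hC b)⟩
  have hone : 1 ∈ S := by
    let b : OrthonormalBasis (Fin d) ℝ (EuclideanSpace ℝ (Fin d)) :=
      EuclideanSpace.basisFun (Fin d) ℝ
    have hdR : (0 : ℝ) < d := by exact_mod_cast hd1
    have hs : 0 < Real.sqrt d := Real.sqrt_pos.2 hdR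
    let x : EuclideanSpace ℝ (Fin d) := WithLp.toLp 2 (fun _ => 2 / Real.sqrt d)
    have hx : ‖x‖ = 2 := by
      rw [EuclideanSpace.norm_eq]
      have : ∀ i ∈ (Finset.univ : Finset (Fin d)), ‖x i‖ ^ 2 = 4 / (d : ℝ) := by
        intro i _
        change ‖(2 / Real.sqrt d : ℝ)‖ ^ 2 = _
        rw [Real.norm_eq_abs, sq_abs, div_pow, Real.sq_sqrt hdR.le]
        norm_num
      rw [Finset.sum_congr rfl this, Finset.sum_const, Finset.card_univ, Fintype.card_fin,
        nsmul_eq_mul, mul_div_cancel₀ _ hdR.ne']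
      rw [show (4 : ℝ) = 2 ^ 2 by norm_num]
      exact Real.sqrt_sq (by norm_num)
    have hxb : x ∈ cubeVertices b := by
      intro i j
      have : ∀ k, ⟪b k, x⟫ = 2 / Real.sqrt d := by
        intro k
        simp only [b, x, EuclideanSpace.basisFun_apply]
        rw [EuclideanSpace.inner_single_left]
        simp
      rw [this, this]
    refine ⟨{x}, b, ?_, ?_⟩
    · refine ⟨by simpa using hx, ?_⟩
      intro u hu v hv huv
      rw [Finset.mem_singleton] at hu hv
      exact absurd (hu.trans hv.symm) huv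
    · have : (({x} : Finset (EuclideanSpace ℝ (Fin d))) : Set (EuclideanSpace ℝ (Fin d))) ∩
          cubeVertices b = {x} := by
        rw [Finset.coe_singleton]
        exact Set.inter_eq_left.2 (Set.singleton_subset_iff.2 hxb)
      rw [this, Set.ncard_singleton]
  have hmem : angCube s d ∈ S := Nat.sSup_mem ⟨1, hone⟩ hbdd
  refine ⟨hB, ?_, le_csSup hbdd hone, ?_⟩
  · classical
    obtain ⟨C, b, hC, hN⟩ := hmem
    refine ⟨C.filter (fun x => x ∈ cubeVertices b), b, ?_, ?_, ?_⟩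
    · refine ⟨fun x hx => hC.1 x (Finset.mem_filter.1 hx).1, fun x hx y hy hxy => ?_⟩
      exact hC.2 x (Finset.mem_filter.1 hx).1 y (Finset.mem_filter.1 hy).1 hxy
    · intro x hx
      exact (Finset.mem_filter.1 hx).2
    · rw [← hN, ← Set.ncard_coe_finset]
      congr 1
      ext x
      simp
  · obtain ⟨C, b, hC, hN⟩ := hmem
    rw [← hN]
    exact hB C hC b

lemma limsup_bound {M : ℕ → ℕ} {κ : ℝ}
    (h : ∀ᶠ d : ℕ in atTop, 1 ≤ M d ∧ (M d : ℝ) ≤ 2 ^ (κ * d)) :
    limsup (fun d : ℕ => Real.logb 2 (M d) / d) atTop ≤ κ := by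
  apply limsup_le_of_le
  · refine ⟨0, ?_⟩
    intro a ha
    rw [eventually_map] at ha
    obtain ⟨d, h1, h2⟩ := (ha.and h).exists
    refine le_trans ?_ h1
    have h3 : 0 ≤ Real.logb 2 (M d) :=
      Real.logb_nonneg (by norm_num) (by exact_mod_cast h2.1)
    positivity
  · filter_upwards [h, eventually_ge_atTop 1] with d hd hd1
    have hd0 : (0 : ℝ) < d := by exact_mod_cast hd1
    rw [div_le_iff₀ hd0]
    rw [Real.logb_le_iff_le_rpow (by norm_num) (by exact_mod_cast hd.1)]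
    exact hd.2

/-- **Kissing configurations on the vertices of a cube.**
(1) For all large `d`, for every kissing configuration `C` in `ℝ^d` and every cube centred at the
origin, at most `2 ^ (0.351 d)` points of `C` are vertices of the cube; `tauCube d` is attained by a
kissing configuration all of whose points are vertices of one cube; the limsup of
`log_2 (tauCube d) / d` is at most `0.351`.
(2) For every `0 < s < 1` the exponent of the configurations on the vertices of a cube with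
pairwise angles of cosine at most `s` is strictly smaller than
`H((1 - √(1 - s^2)) / 2)`, `H` the binary entropy function with values in bits. -/
theorem result :
    ((∀ᶠ d : ℕ in atTop, (∀ C : Finset (EuclideanSpace ℝ (Fin d)), IsKissing d C →
      ∀ b : OrthonormalBasis (Fin d) ℝ (EuclideanSpace ℝ (Fin d)),
        (((C : Set (EuclideanSpace ℝ (Fin d))) ∩ cubeVertices b).ncard : ℝ) ≤
          2 ^ ((351 / 1000 : ℝ) * d)) ∧
      (∃ (C : Finset (EuclideanSpace ℝ (Fin d)))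
        (b : OrthonormalBasis (Fin d) ℝ (EuclideanSpace ℝ (Fin d))),
        IsKissing d C ∧ (C : Set (EuclideanSpace ℝ (Fin d))) ⊆ cubeVertices b ∧
          C.card = tauCube d) ∧
      1 ≤ tauCube d ∧ (tauCube d : ℝ) ≤ 2 ^ ((351 / 1000 : ℝ) * d)) ∧
      limsup (fun d : ℕ => Real.logb 2 (tauCube d) / d) atTop ≤ 351 / 1000) ∧
    ∀ s : ℝ, 0 < s → s < 1 →
      limsup (fun d : ℕ => Real.logb 2 (angCube s d) / d) atTop <
        Real.binEntropy ((1 - Real.sqrt (1 - s ^ 2)) / 2) / Real.log 2 := by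
  have hmain : ∀ᶠ d : ℕ in atTop, (∀ C : Finset (EuclideanSpace ℝ (Fin d)), IsKissing d C →
      ∀ b : OrthonormalBasis (Fin d) ℝ (EuclideanSpace ℝ (Fin d)),
        (((C : Set (EuclideanSpace ℝ (Fin d))) ∩ cubeVertices b).ncard : ℝ) ≤
          2 ^ ((351 / 1000 : ℝ) * d)) ∧
      (∃ (C : Finset (EuclideanSpace ℝ (Fin d)))
        (b : OrthonormalBasis (Fin d) ℝ (EuclideanSpace ℝ (Fin d))),
        IsKissing d C ∧ (C : Set (EuclideanSpace ℝ (Fin d))) ⊆ cubeVertices b ∧
          C.card = tauCube d) ∧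
      1 ≤ tauCube d ∧ (tauCube d : ℝ) ≤ 2 ^ ((351 / 1000 : ℝ) * d) := by
    filter_upwards [Pool.Agent.Helper47.CK.codes, eventually_ge_atTop 1] with d hd hd1
    have h := angular_of_codes (s := 1 / 2) (κ := 351 / 1000) (by norm_num) hd1
      (fun C hC => hd C fun u hu v hv huv => by
        have h1 := hC u hu v hv huv
        have h2 : (d : ℝ) ≤ 4 * hammingDist u v := by linarith
        exact_mod_cast h2)
    simpa only [isKissing_iff_isAngular, tauCube_eq] using h
  refine ⟨⟨hmain, limsup_bound (hmain.mono fun d hd => hd.2.2)⟩, ?_⟩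
  intro s hs0 hs1
  obtain ⟨κ, hκ, hev⟩ := Pool.Agent.Helper47.CK.codes_strict hs0 hs1
  have hl2 : 0 < Real.log 2 := Real.log_pos (by norm_num)
  refine lt_of_le_of_lt (limsup_bound (κ := κ) ?_) ((lt_div_iff₀ hl2).2 hκ)
  filter_upwards [hev, eventually_ge_atTop 1] with d hd hd1
  exact (angular_of_codes hs1 hd1 hd).2.2

end Pool.Agent.Helper47.CK.CubeKeep
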