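import Pool.Agent.Helper47.CK.Asym

/-!
Binary codes of relative distance `1/4` have at most `2^(0.351 n)` elements for large `n`.
-/

set_option autoImplicit false

open Finset Filter

namespace Pool.Agent.Helper47.CK

/-- the test vector -/
noncomputable def tv (ρ : ℝ) (J T : ℕ) (j : ℕ) : ℝ :=
  if J ≤ j ∧ j ≤ T then ρ ^ j * (((j : ℝ) - J + 1) * (T + 1 - j)) else 0

lemma tv_nonneg {ρ : ℝ} (hρ : 0 < ρ) (J T j : ℕ) : 0 ≤ tv ρ J T j := by
  unfold tv
  split_ifs with h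
  · have h1 : (J : ℝ) ≤ j := by exact_mod_cast h.1
    have h2 : (j : ℝ) ≤ T := by exact_mod_cast h.2
    have := pow_pos hρ j
    apply mul_nonneg this.le
    apply mul_nonneg <;> linarith
  · exact le_rfl

lemma tv_eig {ρ A : ℝ} (hρ : 0 < ρ) {n K J T : ℕ} (hJ1 : 1 ≤ J) (hJK : 2 * K ≤ J)
    (hTn : T + 2 * K ≤ n)
    (h1 : A ≤ ((n : ℝ) - 2 * K - T) * ρ) (h2 : A * ρ ≤ (J : ℝ) - 2 * K) {lam : ℝ}
    (hlam : lam * (T + 1 - J) ≤ 2 * A * (T + 1 - J) - 2 * A) (hlam2 : lam ≤ 2 * A) (j : ℕ)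
    (hj : j ∈ Icc (2 * K) T) :
    lam * tv ρ J T j ≤ ((n : ℝ) - 2 * K - j) * tv ρ J T (j + 1)
      + ((j : ℝ) - 2 * K) * tv ρ J T (j - 1) := by
  rw [mem_Icc] at hj
  have hn1 : (T : ℝ) + 2 * K ≤ n := by exact_mod_cast hTn
  have hjT : (j : ℝ) ≤ T := by exact_mod_cast hj.2
  have hjK : (2 : ℝ) * K ≤ j := by exact_mod_cast hj.1
  by_cases h : J ≤ j
  · have hJj : (J : ℝ) ≤ j := by exact_mod_cast h
    have e0 : tv ρ J T j = ρ ^ j * (((j : ℝ) - J + 1) * (T + 1 - j)) := by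
      unfold tv; rw [if_pos ⟨h, hj.2⟩]
    have e1 : tv ρ J T (j + 1) = ρ ^ (j + 1) * (((j : ℝ) - J + 2) * (T - j)) := by
      unfold tv
      by_cases h' : j + 1 ≤ T
      · rw [if_pos ⟨by omega, h'⟩]; push_cast; ring
      · have : j = T := by omega
        rw [if_neg (by omega), this]; ring
    have e2 : tv ρ J T (j - 1) = ρ ^ (j - 1) * (((j : ℝ) - J) * (T + 2 - j)) := by
      unfold tv
      by_cases h' : J ≤ j - 1
      · rw [if_pos ⟨h', by omega⟩, Nat.cast_sub (by omega : 1 ≤ j)]; push_cast; ring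
      · have : j = J := by omega
        rw [if_neg (by omega), this]; ring
    rw [e0, e1, e2]
    set x : ℝ := (j : ℝ) - J + 1 with hx
    set y : ℝ := (T : ℝ) + 1 - j with hy
    have hx1 : 1 ≤ x := by linarith
    have hy1 : 1 ≤ y := by linarith
    have hxy : x + y = (T : ℝ) + 1 - J + 1 := by simp only [hx, hy]; ring
    have hp : 0 < ρ ^ (j - 1) := pow_pos hρ _
    have hpj : ρ ^ j = ρ ^ (j - 1) * ρ := by
      rw [← pow_succ]; congr 1; omega
    have hpj1 : ρ ^ (j + 1) = ρ ^ (j - 1) * ρ ^ 2 := by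
      rw [← pow_add]; congr 1; omega
    rw [hpj, hpj1]
    have k1 : A ≤ ((n : ℝ) - 2 * K - j) * ρ :=
      h1.trans (mul_le_mul_of_nonneg_right (by linarith) hρ.le)
    have k2 : A * ρ ≤ (j : ℝ) - 2 * K := by linarith
    have g1 : 0 ≤ (x + 1) * (y - 1) := by apply mul_nonneg <;> linarith
    have g2 : 0 ≤ (x - 1) * (y + 1) := by apply mul_nonneg <;> linarith
    have hxyL : (T : ℝ) + 1 - J ≤ x * y := by
      have q := mul_nonneg (by linarith : 0 ≤ x - 1) (by linarith : 0 ≤ y - 1)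
      linarith
    have main : lam * (x * y) ≤ A * ((x + 1) * (y - 1)) + A * ((x - 1) * (y + 1)) := by
      have e : A * ((x + 1) * (y - 1)) + A * ((x - 1) * (y + 1)) = 2 * A * (x * y) - 2 * A := by ring
      rw [e]
      have q := mul_le_mul_of_nonneg_left hxyL (by linarith : 0 ≤ 2 * A - lam)
      linarith
    have m1 : A * ρ * ((x + 1) * (y - 1)) ≤ ((n : ℝ) - 2 * K - j) * ρ ^ 2 * ((x + 1) * (y - 1)) := by
      apply mul_le_mul_of_nonneg_right _ g1
      have q := mul_le_mul_of_nonneg_right k1 hρ.le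
      linarith
    have m2 : A * ρ * ((x - 1) * (y + 1)) ≤ ((j : ℝ) - 2 * K) * ((x - 1) * (y + 1)) :=
      mul_le_mul_of_nonneg_right k2 g2
    have e3 : (j : ℝ) - J + 2 = x + 1 := by simp only [hx]; ring
    have e4 : (T : ℝ) - j = y - 1 := by simp only [hy]; ring
    have e5 : (j : ℝ) - J = x - 1 := by simp only [hx]; ring
    have e6 : (T : ℝ) + 2 - j = y + 1 := by simp only [hy]; ring
    rw [e3, e4, e5, e6]
    have m3 : lam * (x * y) * ρ ≤ (A * ((x + 1) * (y - 1)) + A * ((x - 1) * (y + 1))) * ρ :=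
      mul_le_mul_of_nonneg_right main hρ.le
    have m4 : lam * (x * y) * ρ ≤ ((n : ℝ) - 2 * K - j) * ρ ^ 2 * ((x + 1) * (y - 1)) +
        ((j : ℝ) - 2 * K) * ((x - 1) * (y + 1)) := by linarith
    calc lam * (ρ ^ (j - 1) * ρ * (x * y)) = ρ ^ (j - 1) * (lam * (x * y) * ρ) := by ring
      _ ≤ ρ ^ (j - 1) * (((n : ℝ) - 2 * K - j) * ρ ^ 2 * ((x + 1) * (y - 1)) +
        ((j : ℝ) - 2 * K) * ((x - 1) * (y + 1))) := mul_le_mul_of_nonneg_left m4 hp.le
      _ = _ := by ring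
  · have e0 : tv ρ J T j = 0 := by unfold tv; rw [if_neg (by omega)]
    rw [e0, mul_zero]
    have := tv_nonneg hρ J T (j + 1)
    have := tv_nonneg hρ J T (j - 1)
    apply add_nonneg <;> apply mul_nonneg <;> linarith

/-- the bound with all parameters -/
theorem code_bound (n d K T L : ℕ) (hK : K = (n + 1) / 354) (hT : T = 5 * n / 68)
    (hL : L = 100000) (hn : 10 ^ 12 ≤ n) (hd : n ≤ 4 * d) (hd2 : d ≤ n)
    (C : Finset (Fin n → Bool)) (hC : ∀ u ∈ C, ∀ v ∈ C, u ≠ v → d ≤ hammingDist u v) :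
    (C.card : ℝ) * (n.choose K : ℝ) ≤ 1000000 * (∑ j ∈ Icc (2 * K) T, n.choose j : ℕ) := by
  have hK1 : 1 ≤ K := by omega
  obtain ⟨k, rfl⟩ : ∃ k, K = k + 1 := ⟨K - 1, by omega⟩
  set J : ℕ := T + 1 - L with hJ
  have hnR : (10 : ℝ) ^ 12 ≤ n := by exact_mod_cast hn
  have hKR : (354 : ℝ) * (k + 1 : ℕ) ≤ n + 1 := by
    have : 354 * (k + 1) ≤ n + 1 := by omega
    exact_mod_cast this
  have hTR1 : (68 : ℝ) * T ≤ 5 * n := by
    have : 68 * T ≤ 5 * n := by omega
    exact_mod_cast this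
  have hTR2 : (5 : ℝ) * n ≤ 68 * T + 68 := by
    have : 5 * n ≤ 68 * T + 68 := by omega
    exact_mod_cast this
  have hJR : (J : ℝ) = T + 1 - 100000 := by
    have : J + 100000 = T + 1 := by omega
    have h : (J : ℝ) + 100000 = T + 1 := by exact_mod_cast this
    linarith
  set A : ℝ := (1 / 4 + 1 / 150000) * n with hA
  set lam : ℝ := 2 * A * (1 - 1 / 100000) with hlam
  have hA0 : 0 < A := by rw [hA]; positivity
  have heig : ∀ j ∈ Icc (2 * (k + 1)) T, lam * tv (101 / 372) J T j ≤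
      ((n : ℝ) - 2 * (k + 1 : ℕ) - j) * tv (101 / 372) J T (j + 1)
        + ((j : ℝ) - 2 * (k + 1 : ℕ)) * tv (101 / 372) J T (j - 1) := by
    intro j hj
    refine tv_eig (by norm_num) (A := A) (by omega) (by omega) (by omega)
      ?_ ?_ ?_ ?_ j hj
    · rw [hA]
      nlinarith
    · rw [hA, hJR]
      nlinarith
    · rw [hJR, hlam]
      apply le_of_eq
      ring
    · rw [hlam]
      nlinarith
  have h := Pool.Agent.Helper23.KL.cube_bound n k T d (tv (101 / 372) J T)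
    (fun j => tv_nonneg (by norm_num) J T j)
    (fun j hj => by
      unfold tv
      rw [if_neg]
      rintro ⟨h1, h2⟩
      apply hj
      rw [mem_Icc]
      omega)
    ⟨T, by rw [mem_Icc]; omega, by
      unfold tv
      rw [if_pos (by omega)]
      have : 0 < ((101 : ℝ) / 372) ^ T := by positivity
      rw [hJR]
      apply mul_pos this
      nlinarith⟩ (by omega) lam heig
    (by
      have : (n : ℝ) ≤ 4 * d := by exact_mod_cast hd
      rw [hlam, hA]
      nlinarith) C hC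
  have hdR : (n : ℝ) ≤ 4 * d := by exact_mod_cast hd
  have hdR2 : (d : ℝ) ≤ n := by exact_mod_cast hd2
  -- the binomial difference
  have hbin : (n.choose k : ℝ) ≤ (1 / 2) * n.choose (k + 1) := by
    have h1 := Nat.choose_succ_right_eq n k
    have h2 : n.choose k * (2 * (k + 1)) ≤ n.choose (k + 1) * (k + 1) := by
      rw [h1]
      apply Nat.mul_le_mul_left
      omega
    have h3 : n.choose k * 2 ≤ n.choose (k + 1) := by
      apply Nat.le_of_mul_le_mul_right (c := k + 1) _ (Nat.succ_pos k)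
      linarith
    have h4 : (n.choose k : ℝ) * 2 ≤ n.choose (k + 1) := by exact_mod_cast h3
    linarith
  have hgap : (2 / 1000000 : ℝ) * n ≤ (lam - ((n : ℝ) - 2 * d)) * (1 / 2) := by
    rw [hlam, hA]
    nlinarith
  have hcard : (0 : ℝ) ≤ C.card := Nat.cast_nonneg _
  have hch : (0 : ℝ) ≤ n.choose (k + 1) := Nat.cast_nonneg _
  have h3 : (2 / 1000000 : ℝ) * n * (n.choose (k + 1) * C.card) ≤
      (lam - ((n : ℝ) - 2 * d)) * ((n.choose (k + 1) : ℝ) - n.choose k) * (C.card : ℝ) := by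
    have h4 : (1 / 2 : ℝ) * n.choose (k + 1) ≤ (n.choose (k + 1) : ℝ) - n.choose k := by linarith
    have h5 : 0 ≤ lam - ((n : ℝ) - 2 * d) := by
      have : (0 : ℝ) ≤ 2 / 1000000 * n := by positivity
      linarith
    calc (2 / 1000000 : ℝ) * n * (n.choose (k + 1) * C.card)
        ≤ ((lam - ((n : ℝ) - 2 * d)) * (1 / 2)) * (n.choose (k + 1) * C.card) :=
          mul_le_mul_of_nonneg_right hgap (mul_nonneg hch hcard)
      _ = (lam - ((n : ℝ) - 2 * d)) * ((1 / 2) * n.choose (k + 1)) * C.card := by ring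
      _ ≤ _ := by
          apply mul_le_mul_of_nonneg_right _ hcard
          exact mul_le_mul_of_nonneg_left h4 h5
  have hsum : (0 : ℝ) ≤ ∑ j ∈ Icc (2 * (k + 1)) T, (n.choose j : ℝ) :=
    Finset.sum_nonneg fun _ _ => Nat.cast_nonneg _
  have h6 : (2 / 1000000 : ℝ) * n * (n.choose (k + 1) * C.card) ≤
      2 * n * ∑ j ∈ Icc (2 * (k + 1)) T, (n.choose j : ℝ) := by
    refine h3.trans (h.trans ?_)
    apply mul_le_mul_of_nonneg_right _ hsum
    linarith
  have hn0 : (0 : ℝ) < n := by linarith [show (0 : ℝ) < 10 ^ 12 by norm_num]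
  push_cast
  have h7 : (n : ℝ) * (C.card * n.choose (k + 1)) ≤
      n * (1000000 * ∑ j ∈ Icc (2 * (k + 1)) T, (n.choose j : ℝ)) := by
    linarith
  exact le_of_mul_le_mul_left h7 hn0

end Pool.Agent.Helper47.CK
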