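import Pool.Agent.Helper47.CK.Codes

/-!
Binary codes of relative distance `δ`: the bound `2^(κ n)` for every
`κ > (h(τ) - h(ν)) / log 2` with `(1 - 2 δ)^2 / 4 < (τ - 2 ν) (1 - τ - 2 ν)`.
-/

set_option autoImplicit false

open Finset Filter

namespace Pool.Agent.Helper47.CK

/-- the largest term of the binomial expansion of `(ν + (1 - ν))^n` -/
lemma choose_lower_real (n K : ℕ) {ν : ℝ} (h0 : 0 < ν) (h1 : ν < 1)
    (hK1 : (K : ℝ) ≤ (n + 1) * ν) (hK2 : (n + 1) * ν ≤ K + 1) (hKn : K ≤ n) :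
    1 ≤ ((n : ℝ) + 1) * (n.choose K * (ν ^ K * (1 - ν) ^ (n - K))) := by
  have hq : 0 < 1 - ν := by linarith
  set a : ℕ → ℝ := fun j => n.choose j * (ν ^ j * (1 - ν) ^ (n - j)) with ha
  have key : ∀ j, j < n → (a (j + 1)) * ((j + 1) * (1 - ν)) = a j * ((n - j : ℕ) * ν) := by
    intro j hj
    have e1 : n - j = (n - (j + 1)) + 1 := by omega
    have e2 : ((n.choose (j + 1) : ℝ) * (j + 1)) = n.choose j * (n - j : ℕ) := by
      exact_mod_cast Nat.choose_succ_right_eq n j
    have e3 : (1 - ν) ^ (n - j) = (1 - ν) ^ (n - (j + 1)) * (1 - ν) := by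
      rw [← pow_succ, ← e1]
    simp only [ha]
    rw [e3]
    calc (n.choose (j + 1) : ℝ) * (ν ^ (j + 1) * (1 - ν) ^ (n - (j + 1))) * ((j + 1) * (1 - ν))
        = ((n.choose (j + 1) : ℝ) * (j + 1)) * (ν ^ (j + 1) * (1 - ν) ^ (n - (j + 1)) * (1 - ν)) := by
          ring
      _ = _ := by rw [e2]; ring
  have hapos : ∀ j, 0 ≤ a j := by
    intro j
    simp only [ha]
    positivity
  have up : ∀ j, j < K → a j ≤ a (j + 1) := by
    intro j hj
    have hjn : j < n := by omega
    have h2 := key j hjn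
    have h3 : ((j : ℝ) + 1) * (1 - ν) ≤ ((n - j : ℕ) : ℝ) * ν := by
      rw [Nat.cast_sub hjn.le]
      have : ((j : ℝ) + 1) ≤ K := by exact_mod_cast hj
      nlinarith
    have h4 : 0 < ((j : ℝ) + 1) * (1 - ν) := by positivity
    by_contra h
    push Not at h
    have h5 : a (j + 1) * (((j : ℝ) + 1) * (1 - ν)) < a j * (((j : ℝ) + 1) * (1 - ν)) :=
      mul_lt_mul_of_pos_right h h4
    have h6 := mul_le_mul_of_nonneg_left h3 (hapos j)
    linarith
  have down : ∀ j, K ≤ j → j < n → a (j + 1) ≤ a j := by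
    intro j hj hjn
    have h2 := key j hjn
    have h3 : ((n - j : ℕ) : ℝ) * ν ≤ ((j : ℝ) + 1) * (1 - ν) := by
      rw [Nat.cast_sub hjn.le]
      have : (K : ℝ) ≤ j := by exact_mod_cast hj
      nlinarith
    have h4 : 0 < ((j : ℝ) + 1) * (1 - ν) := by positivity
    have h5 : a (j + 1) * (((j : ℝ) + 1) * (1 - ν)) ≤ a j * (((j : ℝ) + 1) * (1 - ν)) := by
      rw [h2]
      exact mul_le_mul_of_nonneg_left h3 (hapos j)
    exact le_of_mul_le_mul_right h5 h4
  have h2 : ∀ i, i ≤ K → a (K - i) ≤ a K := by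
    intro i
    induction i with
    | zero => intro _; simp
    | succ i ih =>
      intro hi
      refine le_trans ?_ (ih (by omega))
      have := up (K - (i + 1)) (by omega)
      rwa [show K - (i + 1) + 1 = K - i by omega] at this
  have h3 : ∀ i, K + i ≤ n → a (K + i) ≤ a K := by
    intro i
    induction i with
    | zero => intro _; simp
    | succ i ih =>
      intro hi
      refine le_trans ?_ (ih (by omega))
      exact down (K + i) (by omega) (by omega)
  have h4 : ∀ j ∈ range (n + 1), a j ≤ a K := by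
    intro j hj
    rw [mem_range] at hj
    rcases le_total j K with h | h
    · have := h2 (K - j) (by omega)
      rwa [show K - (K - j) = j by omega] at this
    · have := h3 (j - K) (by omega)
      rwa [show K + (j - K) = j by omega] at this
  have h5 : (1 : ℝ) = ∑ j ∈ range (n + 1), a j := by
    have h6 := add_pow ν (1 - ν) n
    rw [show ν + (1 - ν) = 1 by ring, one_pow] at h6
    rw [h6]
    refine sum_congr rfl fun j _ => ?_
    simp only [ha]
    ring
  have h7 := sum_le_card_nsmul _ _ _ h4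
  rw [card_range, nsmul_eq_mul, ← h5] at h7
  push_cast at h7
  exact h7

/-- the sum of the small binomial coefficients -/
lemma sum_upper_real (n a T : ℕ) {τ : ℝ} (h0 : 0 < τ) (h1 : τ ≤ 1 / 2) (hT : T ≤ n) :
    (∑ j ∈ Icc a T, (n.choose j : ℝ)) * (τ ^ T * (1 - τ) ^ (n - T)) ≤ 1 := by
  have hq : 0 < 1 - τ := by linarith
  have h2 : (1 : ℝ) = ∑ j ∈ range (n + 1), τ ^ j * (1 - τ) ^ (n - j) * (n.choose j : ℝ) := by
    have h6 := add_pow τ (1 - τ) n
    rwa [show τ + (1 - τ) = 1 by ring, one_pow] at h6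
  rw [sum_mul]
  refine le_trans (le_trans (sum_le_sum
    (g := fun j => τ ^ j * (1 - τ) ^ (n - j) * (n.choose j : ℝ)) ?_)
    (sum_le_sum_of_subset_of_nonneg (t := range (n + 1)) ?_ ?_)) h2.symm.le
  · intro j hj
    rw [mem_Icc] at hj
    rw [mul_comm]
    apply mul_le_mul_of_nonneg_right _ (Nat.cast_nonneg _)
    have e1 : T = j + (T - j) := by omega
    have e2 : n - j = (n - T) + (T - j) := by omega
    have e3 : τ ^ T = τ ^ j * τ ^ (T - j) := by rw [← pow_add, ← e1]
    have e4 : (1 - τ) ^ (n - j) = (1 - τ) ^ (n - T) * (1 - τ) ^ (T - j) := by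
      rw [← pow_add, ← e2]
    rw [e3, e4]
    have e5 : τ ^ (T - j) ≤ (1 - τ) ^ (T - j) := pow_le_pow_left₀ h0.le (by linarith) _
    calc τ ^ j * τ ^ (T - j) * (1 - τ) ^ (n - T) = τ ^ j * (1 - τ) ^ (n - T) * τ ^ (T - j) := by ring
      _ ≤ τ ^ j * (1 - τ) ^ (n - T) * (1 - τ) ^ (T - j) :=
          mul_le_mul_of_nonneg_left e5 (by positivity)
      _ = _ := by ring
  · intro j hj
    rw [mem_Icc] at hj
    rw [mem_range]
    omega
  · intro j _ _
    positivity

/-- the bound with all parameters -/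
theorem code_bound_gen (n d k T L : ℕ) {ρ A lam g : ℝ} (hρ : 0 < ρ) (hL : 1 ≤ L)
    (hJK : 2 * (k + 1) ≤ T + 1 - L) (hLT : L ≤ T) (hTn : T + 2 * (k + 1) ≤ n) (hA : 0 < A)
    (h1 : A ≤ ((n : ℝ) - 2 * (k + 1 : ℕ) - T) * ρ)
    (h2 : A * ρ ≤ (T : ℝ) + 1 - L - 2 * (k + 1 : ℕ))
    (hlam : lam = 2 * A * (1 - 1 / L)) (hg : 0 < g) (hn0 : 1 ≤ n)
    (hgap : g * n ≤ lam - ((n : ℝ) - 2 * d)) (hd2 : d ≤ n)
    (C : Finset (Fin n → Bool)) (hC : ∀ u ∈ C, ∀ v ∈ C, u ≠ v → d ≤ hammingDist u v) :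
    (C.card : ℝ) * (n.choose (k + 1) : ℝ) ≤ (4 / g) * ∑ j ∈ Icc (2 * (k + 1)) T, (n.choose j : ℝ) := by
  set J : ℕ := T + 1 - L with hJ
  have hLR : (1 : ℝ) ≤ L := by exact_mod_cast hL
  have hJR : (J : ℝ) = T + 1 - L := by
    have : J + L = T + 1 := by omega
    have h : (J : ℝ) + L = T + 1 := by exact_mod_cast this
    linarith
  have hn0R : (1 : ℝ) ≤ n := by exact_mod_cast hn0
  have heig : ∀ j ∈ Icc (2 * (k + 1)) T, lam * tv ρ J T j ≤
      ((n : ℝ) - 2 * (k + 1 : ℕ) - j) * tv ρ J T (j + 1)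
        + ((j : ℝ) - 2 * (k + 1 : ℕ)) * tv ρ J T (j - 1) := by
    intro j hj
    refine tv_eig hρ (A := A) (by omega) (by omega) (by omega) h1 ?_ ?_ ?_ j hj
    · rw [hJR]
      exact h2
    · rw [hJR, hlam]
      apply le_of_eq
      field_simp
      ring
    · rw [hlam]
      have : 0 ≤ 1 / (L : ℝ) := by positivity
      nlinarith
  have h := Pool.Agent.Helper23.KL.cube_bound n k T d (tv ρ J T)
    (fun j => tv_nonneg hρ J T j)
    (fun j hj => by
      unfold tv
      rw [if_neg]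
      rintro ⟨h1, h2⟩
      apply hj
      rw [mem_Icc]
      omega)
    ⟨T, by rw [mem_Icc]; omega, by
      unfold tv
      rw [if_pos (by omega)]
      have : 0 < ρ ^ T := by positivity
      rw [hJR]
      apply mul_pos this
      nlinarith⟩ (by omega) lam heig
    (by nlinarith) C hC
  have hdR2 : (d : ℝ) ≤ n := by exact_mod_cast hd2
  -- the binomial difference
  have hbin : (n.choose k : ℝ) ≤ (1 / 2) * n.choose (k + 1) := by
    have h1 := Nat.choose_succ_right_eq n k
    have h2 : n.choose k * (2 * (k + 1)) ≤ n.choose (k + 1) * (k + 1) := by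
      rw [h1]
      apply Nat.mul_le_mul_left
      omega
    have h3 : n.choose k * 2 ≤ n.choose (k + 1) := by
      apply Nat.le_of_mul_le_mul_right (c := k + 1) _ (Nat.succ_pos k)
      linarith
    have h4 : (n.choose k : ℝ) * 2 ≤ n.choose (k + 1) := by exact_mod_cast h3
    linarith
  have hcard : (0 : ℝ) ≤ C.card := Nat.cast_nonneg _
  have hch : (0 : ℝ) ≤ n.choose (k + 1) := Nat.cast_nonneg _
  have hgn : 0 < g * n := by positivity
  have h3 : g * n * (1 / 2) * (n.choose (k + 1) * C.card) ≤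
      (lam - ((n : ℝ) - 2 * d)) * ((n.choose (k + 1) : ℝ) - n.choose k) * (C.card : ℝ) := by
    have h4 : (1 / 2 : ℝ) * n.choose (k + 1) ≤ (n.choose (k + 1) : ℝ) - n.choose k := by linarith
    calc g * n * (1 / 2) * (n.choose (k + 1) * C.card)
        = (g * n) * ((1 / 2 * n.choose (k + 1)) * C.card) := by ring
      _ ≤ (lam - ((n : ℝ) - 2 * d)) * ((1 / 2 * n.choose (k + 1)) * C.card) :=
          mul_le_mul_of_nonneg_right hgap (by positivity)
      _ ≤ (lam - ((n : ℝ) - 2 * d)) * (((n.choose (k + 1) : ℝ) - n.choose k) * C.card) := by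
          apply mul_le_mul_of_nonneg_left _ (by linarith)
          exact mul_le_mul_of_nonneg_right h4 hcard
      _ = _ := by ring
  have hsum : (0 : ℝ) ≤ ∑ j ∈ Icc (2 * (k + 1)) T, (n.choose j : ℝ) :=
    Finset.sum_nonneg fun _ _ => Nat.cast_nonneg _
  have h6 : g * n * (1 / 2) * (n.choose (k + 1) * C.card) ≤
      2 * n * ∑ j ∈ Icc (2 * (k + 1)) T, (n.choose j : ℝ) := by
    refine h3.trans (h.trans ?_)
    apply mul_le_mul_of_nonneg_right _ hsum
    linarith
  have h7 : (g * n) * (C.card * n.choose (k + 1)) ≤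
      (g * n) * ((4 / g) * ∑ j ∈ Icc (2 * (k + 1)) T, (n.choose j : ℝ)) := by
    have e : (g * n) * ((4 / g) * ∑ j ∈ Icc (2 * (k + 1)) T, (n.choose j : ℝ)) =
        4 * n * ∑ j ∈ Icc (2 * (k + 1)) T, (n.choose j : ℝ) := by
      field_simp
    rw [e]
    linarith
  exact le_of_mul_le_mul_left h7 hgn

end Pool.Agent.Helper47.CK
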